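import Pool.Agent.U857.AW.Count
import Pool.Agent.U857.AF.Main

/-! Central values of quadratic twists near the values of vector functions of two variables. -/

set_option autoImplicit false

namespace Pool.Agent.U857.AW

open Finset UpperHalfPlane Pool.Agent.U449.BV Pool.Agent.U857.AF

noncomputable section

/-- The values `L D` (the central values `L(1/2, π ⊗ χ_D)`) are bounded by the squares of the coefficients of finitely many cusp
forms of weight `lam / 2`: `|L(D)| |D| ^ (lam/2 - 1) ≤ C ∑ |a_l(|D|)| ^ 2` for all squarefree `D` (of both signs). This is Waldspurger's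
formula, for `π` of a holomorphic newform of weight `lam - 1`. -/
def CentralValues (lam : ℕ) (L : ℤ → ℂ) : Prop :=
  ∃ (m : ℕ) (N : Fin m → ℕ) (χ : ∀ l, DirichletCharacter ℂ (N l)) (f : Fin m → ℍ → ℂ) (a : Fin m → ℕ → ℂ) (C : ℝ),
    (∀ l, N l ≠ 0) ∧ (∀ l, IsCuspForm lam (N l) (χ l) (f l)) ∧ (∀ l, Coefficients (f l) (a l)) ∧
    ∀ D : ℤ, Squarefree D → ‖L D‖ * (D.natAbs : ℝ) ^ ((lam : ℝ) / 2 - 1) ≤ C * ∑ l, ‖a l D.natAbs‖ ^ 2

/-- The bound of Q1 with the exponent `β` holds for all `L j` at ALL squarefree `D_1, …, D_k` (of both signs) such that `|D_i|` is at a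
distance of at most `W` from `x_i`. -/
def NearTwists {k n : ℕ} (L : Fin n → ℤ → ℂ) (β C : ℝ) (W : ℝ) (x : Fin k → ℝ) : Prop :=
  ∀ D : Fin k → ℤ, (∀ i, Squarefree (D i)) → (∀ i, |((D i).natAbs : ℝ) - x i| ≤ W) →
    ∀ (j : Fin n) (i : Fin k), ‖L j (D i)‖ ≤ C * ((D i).natAbs : ℝ) ^ β

open Classical in
theorem union {ι : Type} [Fintype ι] (b : ι → ℕ → Prop) {s : ℝ}
    (h : ∀ l, ∃ K : ℝ, 0 ≤ K ∧ ∀ X : ℕ, (((Icc 1 X).filter (b l)).card : ℝ) ≤ K * (X : ℝ) ^ s) (q : ℕ → Prop)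
    (hq : ∀ n, q n → ∃ l, b l n) :
    ∃ K : ℝ, 0 ≤ K ∧ ∀ X : ℕ, (((Icc 1 X).filter q).card : ℝ) ≤ K * (X : ℝ) ^ s := by
  choose K hK0 hK using h
  refine ⟨∑ l, K l, sum_nonneg fun l _ => hK0 l, fun X => ?_⟩
  have hsub : (Icc 1 X).filter q ⊆ univ.biUnion fun l => (Icc 1 X).filter (b l) := by
    intro n hn
    rw [mem_filter] at hn
    obtain ⟨h1, h2⟩ := hn
    obtain ⟨l, h3⟩ := hq n h2
    rw [mem_biUnion]
    exact ⟨l, mem_univ l, mem_filter.2 ⟨h1, h3⟩⟩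
  calc (((Icc 1 X).filter q).card : ℝ)
      ≤ ∑ l, (((Icc 1 X).filter (b l)).card : ℝ) := by
        exact_mod_cast (card_le_card hsub).trans card_biUnion_le
    _ ≤ ∑ l, K l * (X : ℝ) ^ s := sum_le_sum fun l _ => hK l X
    _ = _ := by rw [sum_mul]

/-- the exceptions for one family of central values -/
def badL (L : ℤ → ℂ) (β C : ℝ) (r : ℕ) : Prop := ∃ D : ℤ, Squarefree D ∧ D.natAbs = r ∧ C * (r : ℝ) ^ β < ‖L D‖

open Classical in
theorem one {lam : ℕ} (hlam : 2 ≤ lam) {L : ℤ → ℂ} (hL : CentralValues lam L) {β : ℝ} (hβ : 0 < β) (hβ1 : β < 1) :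
    ∃ C : ℝ, 0 ≤ C ∧ ∃ K : ℝ, 0 ≤ K ∧ ∀ X : ℕ, (((Icc 1 X).filter (badL L β C)).card : ℝ) ≤ K * (X : ℝ) ^ (1 - β) := by
  obtain ⟨m, N, χ, f, a, C, hN, hf, ha, h⟩ := hL
  have hw : (1 : ℝ) ≤ (lam : ℝ) / 2 := by
    have : (2 : ℝ) ≤ lam := by exact_mod_cast hlam
    linarith
  refine ⟨|C| * m, by positivity, union (fun l => bad (a l) (((lam : ℝ) / 2 - 1) / 2 + β / 2)) (fun l => ?_) _ ?_⟩
  · have : NeZero (N l) := ⟨hN l⟩
    obtain ⟨C1, hC1, h1⟩ := bound lam (N l) (χ l) (f l) (hf l)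
    obtain ⟨C2, hC2, h2⟩ := mean_square (w := (lam : ℝ) / 2) (ha l) hC1 (fun z => by
      have e : ((lam : ℝ) / 2 / 2) = (lam : ℝ) / 4 := by ring
      rw [e]
      exact h1 z)
    obtain ⟨K, hK0, hK⟩ := count hC2 hw h2 (ε := β / 2) (by linarith) (by linarith)
    refine ⟨K, hK0, fun X => ?_⟩
    have e : 1 - 2 * (β / 2) = 1 - β := by ring
    rw [← e]
    exact hK X
  · rintro r ⟨D, hD, hDr, hbad⟩
    by_contra hcon
    push Not at hcon
    have hr : 1 ≤ r := by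
      rw [← hDr]
      exact Nat.one_le_iff_ne_zero.2 (Int.natAbs_ne_zero.2 hD.ne_zero)
    have hr0 : (0 : ℝ) < r := by exact_mod_cast hr
    have h1 : ∀ l, ‖a l r‖ ^ 2 ≤ (r : ℝ) ^ ((lam : ℝ) / 2 - 1 + β) := by
      intro l
      have h2 := not_lt.1 (hcon l)
      calc ‖a l r‖ ^ 2 ≤ ((r : ℝ) ^ (((lam : ℝ) / 2 - 1) / 2 + β / 2)) ^ 2 := pow_le_pow_left₀ (norm_nonneg _) h2 2
        _ = _ := by
          rw [← Real.rpow_mul_natCast hr0.le]
          congr 1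
          push_cast
          ring
    have h2 := h D hD
    rw [hDr] at h2
    have h3 : C * ∑ l, ‖a l r‖ ^ 2 ≤ |C| * m * (r : ℝ) ^ β * (r : ℝ) ^ ((lam : ℝ) / 2 - 1) := by
      calc C * ∑ l, ‖a l r‖ ^ 2 ≤ |C| * ∑ l, ‖a l r‖ ^ 2 :=
            mul_le_mul_of_nonneg_right (le_abs_self C) (sum_nonneg fun _ _ => by positivity)
        _ ≤ |C| * ∑ _l : Fin m, (r : ℝ) ^ ((lam : ℝ) / 2 - 1 + β) :=
            mul_le_mul_of_nonneg_left (sum_le_sum fun l _ => h1 l) (abs_nonneg C)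
        _ = _ := by
            rw [sum_const, card_univ, Fintype.card_fin, nsmul_eq_mul, Real.rpow_add hr0]
            ring
    have h4 : (0 : ℝ) < (r : ℝ) ^ ((lam : ℝ) / 2 - 1) := Real.rpow_pos_of_pos hr0 _
    exact absurd (le_of_mul_le_mul_right (h2.trans h3) h4) (not_le.2 hbad)

theorem nearTwists {k n : ℕ} {lam : Fin n → ℕ} {L : Fin n → ℤ → ℂ} (hk : 1 ≤ k) (hlam : ∀ j, 2 ≤ lam j)
    (hL : ∀ j, CentralValues (lam j) (L j)) {β κ : ℝ} (hβ : 0 < β) (hβ1 : β < 1) (hκ : 0 ≤ κ) :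
    ∃ C : ℝ, OnProductsV k ((k : ℝ) - β + k * κ) κ (NearTwists L β C) := by
  classical
  choose C hC K hK0 hK using fun j => one (hlam j) (hL j) hβ hβ1
  refine ⟨∑ j, C j, ?_⟩
  obtain ⟨K', hK0', hK'⟩ := union (fun j => badL (L j) β (C j)) (s := 1 - β) (fun j => ⟨K j, hK0 j, fun X => by
    convert hK j X⟩) (fun r => ∃ j, badL (L j) β (C j) r) (fun _ h => h)
  obtain ⟨E, hE⟩ := vec (ε := β / 2) hk (fun r => ∃ j, badL (L j) β (C j) r) ⟨K', hK0', fun X => by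
    have e : 1 - 2 * (β / 2) = 1 - β := by ring
    rw [e]
    convert hK' X⟩
  have e2 : (k : ℝ) - 2 * (β / 2) = k - β := by ring
  rw [e2] at hE
  have hk' : (1 : ℝ) ≤ k := by exact_mod_cast hk
  refine (on_products_tuples (k := k) 1 {w : Fin k → ℕ | ∃ i, ∃ j, badL (L j) β (C j) (w i)} (s := (k : ℝ) - β) (C := E)
    (by linarith) hκ hE).mono (fun W x _ h' D hD hDx j i => ?_)
  have h1 := h' (fun i => (D i).natAbs)
    (fun i => Nat.one_le_iff_ne_zero.2 (Int.natAbs_ne_zero.2 (hD i).ne_zero)) hDx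
  have h2 : ‖L j (D i)‖ ≤ C j * ((D i).natAbs : ℝ) ^ β := by
    by_contra hcon
    exact h1 ⟨i, j, D i, hD i, rfl, not_le.1 hcon⟩
  exact h2.trans (mul_le_mul_of_nonneg_right (single_le_sum (fun j _ => hC j) (mem_univ j)) (by positivity))

end

end Pool.Agent.U857.AW
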